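import Pool.Agent.LPW.StmtsF

/-!
# Squad LPW, row SPL: the splitting of an irreducible family
-/

set_option autoImplicit false

open Polynomial NumberField
open Pool.Agent.LUB (spr)

namespace Pool.Agent.LPW.H29

/-- evaluation at a transcendental element is injective -/
theorem eval_inj {Ω : Type} [Field Ω] [CharZero Ω] {T : Ω} (hT : Transcendental ℚ T) :
    Function.Injective (eval₂RingHom (Int.castRingHom Ω) T) := by
  rw [injective_iff_map_eq_zero]
  intro p hp
  rw [coe_eval₂RingHom] at hp
  have h1 : aeval T (p.map (Int.castRingHom ℚ)) = 0 := by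
    rw [aeval_def, eval₂_map]
    have h2 : (algebraMap ℚ Ω).comp (Int.castRingHom ℚ) = Int.castRingHom Ω :=
      RingHom.ext_int _ _
    rw [h2]
    exact hp
  have h3 : p.map (Int.castRingHom ℚ) = 0 := by
    by_contra h0
    exact hT ⟨_, h0, h1⟩
  exact (Polynomial.map_eq_zero_iff (RingHom.injective_int _)).1 h3

/-- the specialization is separable -/
theorem sep_of (K Ω' : Type) [Field K] [CharZero K] [Algebra ℤ[X] K] [IsFractionRing ℤ[X] K]
    [Field Ω'] (T : Ω') (hinj : Function.Injective (eval₂RingHom (Int.castRingHom Ω') T))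
    (f : ℤ[X][X]) (hf : f.Monic) (hirr : Irreducible f) : (spr f T).Separable := by
  let φ : K →+* Ω' := IsFractionRing.lift hinj
  have hφ : φ.comp (algebraMap ℤ[X] K) = eval₂RingHom (Int.castRingHom _) T :=
    RingHom.ext fun p => IsFractionRing.lift_algebraMap hinj p
  have hirr' : Irreducible (f.map (algebraMap ℤ[X] K)) :=
    (hf.irreducible_iff_irreducible_map_fraction_map (K := K)).1 hirr
  have hspr : spr f T = (f.map (algebraMap ℤ[X] K)).map φ := by
    rw [Polynomial.map_map, hφ]
    rfl
  rw [hspr]
  exact hirr'.separable.map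

/-- SPL -/
theorem spl : SplStmt := by
  classical
  intro Ω _ _ T hT f n hf hn hirr
  let ι : Ω →+* AlgebraicClosure Ω := algebraMap Ω (AlgebraicClosure Ω)
  have hcz : CharZero (AlgebraicClosure Ω) := charZero_of_injective_algebraMap
    (algebraMap Ω (AlgebraicClosure Ω)).injective
  have hT' : Transcendental ℚ (ι T) := by
    intro h
    exact hT ((isAlgebraic_algebraMap_iff (algebraMap Ω (AlgebraicClosure Ω)).injective).1 h)
  -- the field of fractions
  have hinj := eval_inj hT'
  have hczK : CharZero (FractionRing ℤ[X]) :=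
    charZero_of_injective_algebraMap (IsFractionRing.injective ℤ[X] (FractionRing ℤ[X]))
  have hsep' : (spr f (ι T)).Separable :=
    sep_of (FractionRing ℤ[X]) (AlgebraicClosure Ω) (ι T) hinj f hf hirr
  have hmon : (spr f (ι T)).Monic := hf.map _
  have hdeg : (spr f (ι T)).natDegree = n := by
    unfold spr
    rw [hf.natDegree_map, hn]
  have hsplit : (spr f (ι T)).Splits := IsAlgClosed.splits _
  have hnd : (spr f (ι T)).roots.Nodup := nodup_roots hsep'
  have hcard : (spr f (ι T)).roots.toFinset.card = n := by
    rw [Multiset.toFinset_card_of_nodup hnd, ← hdeg]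
    exact hsplit.natDegree_eq_card_roots.symm
  let e : Fin n ≃ (spr f (ι T)).roots.toFinset :=
    ((spr f (ι T)).roots.toFinset.equivFinOfCardEq hcard).symm
  refine ⟨AlgebraicClosure Ω, inferInstance, hcz, ι, fun j => (e j : AlgebraicClosure Ω), ?_, ?_,
    hT'⟩
  · intro i j hij
    exact e.injective (Subtype.ext hij)
  · have h1 := hsplit.eq_prod_roots_of_monic hmon
    have h2 : (Multiset.map (fun a => X - C a) (spr f (ι T)).roots).prod =
        ∏ a ∈ (spr f (ι T)).roots.toFinset, (X - C a) := by
      rw [Finset.prod_multiset_map_count]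
      refine Finset.prod_congr rfl fun a ha => ?_
      rw [Multiset.count_eq_one_of_mem hnd (Multiset.mem_toFinset.1 ha), pow_one]
    refine h1.trans (h2.trans ?_)
    rw [← Finset.prod_coe_sort]
    exact (Equiv.prod_comp e (fun a : (spr f (ι T)).roots.toFinset =>
      (X - C (a : AlgebraicClosure Ω)))).symm

end Pool.Agent.LPW.H29
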